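import Pool.Agent.H60.QG.GenC2

/-!
# The time-one map of a Hamiltonian on the torus exists and is unique
-/

set_option autoImplicit false
set_option linter.unusedSectionVars false

open Metric Module Set
open scoped RealInnerProductSpace Gradient

namespace Pool.Agent.H60.QG

open Pool.Agent.H60.PO (PerHam toHam gX gY unc Evo)

variable {n : ℕ}

theorem IsHamiltonian.perHam {H : ℝ → PtE n → ℝ} (h : IsHamiltonian H) :
    PerHam (projHom n).ker H := by
  refine ⟨h.smooth, h.time, fun t z e he => h.space t _ _ ?_⟩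
  rw [proj_eq, add_sub_cancel_left]
  exact he

theorem proj_surj (p : Torus n) : ∃ z : PtE n, proj z = p := by
  choose a ha using fun i => QuotientAddGroup.mk_surjective (p.1 i)
  choose b hb using fun i => QuotientAddGroup.mk_surjective (p.2 i)
  exact ⟨(WithLp.toLp 2 a, WithLp.toLp 2 b), Prod.ext (funext ha) (funext hb)⟩

/-- The system of equations in the definition of the time-one map. -/
theorem sys_iff {H : ℝ → PtE n → ℝ} (h : IsHamiltonian H) (γ : ℝ → PtE n) (t : ℝ) :
    HasDerivAt γ (∇ (fun y => H t ((γ t).1, y)) (γ t).2,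
      -∇ (fun x => H t (x, (γ t).2)) (γ t).1) t ↔
    HasDerivAt γ ((toHam H).fld t (γ t)) t := by
  have h3 := (h.perHam.hasGradientAt_fst t (γ t)).gradient
  have h4 := (h.perHam.hasGradientAt_snd t (γ t)).gradient
  rw [h3, h4]
  exact Iff.rfl

/-- The flow: through each point passes exactly one solution, and it depends periodically on the
point. -/
theorem exists_flow {H : ℝ → PtE n → ℝ} (h : IsHamiltonian H) :
    ∃ Γ : PtE n → ℝ → PtE n, (∀ z, Γ z 0 = z) ∧
      (∀ z t, HasDerivAt (Γ z) ((toHam H).fld t (Γ z t)) t) ∧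
      (∀ γ : ℝ → PtE n, (∀ t, HasDerivAt γ ((toHam H).fld t (γ t)) t) → γ = Γ (γ 0)) ∧
      ∀ z, ∀ e ∈ (projHom n).ker, ∀ t, Γ (z + e) t = Γ z t + e := by
  obtain ⟨C, hC, hX, hY⟩ := exists_reg h.perHam cocompact
  obtain ⟨E, hE⟩ := h.perHam.evo hX hY
  have hun : ∀ γ : ℝ → PtE n, (∀ t, HasDerivAt γ ((toHam H).fld t (γ t)) t) →
      γ = E 0 (γ 0) := by
    intro γ hγ
    refine ODE_solution_unique_univ (v := fun t z => (toHam H).fld t z) (s := fun _ => univ)
      (K := C) (t₀ := 0) (fun t => ?_) (fun t => ⟨hγ t, mem_univ _⟩)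
      (fun t => ⟨hE.deriv 0 (γ 0) t, mem_univ _⟩) (hE.init 0 (γ 0)).symm
    refine (LipschitzWith.of_dist_le_mul fun z z' => ?_).lipschitzOnWith
    rw [dist_eq_norm, dist_eq_norm]
    exact hC.lip t z z'
  refine ⟨E 0, hE.init 0, hE.deriv 0, hun, fun z e he t => ?_⟩
  have h1 := hun (fun t => E 0 z t + e) (fun t => by
    rw [h.perHam.fld_per t _ e he]
    exact (hE.deriv 0 z t).add_const e)
  simp only [hE.init] at h1
  exact (congrFun h1 t).symm

/-- **The time-one map of a Hamiltonian exists and is unique.** -/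
theorem existsUnique_isTimeOne {H : ℝ → PtE n → ℝ} (h : IsHamiltonian H) :
    ∃! f : Torus n → Torus n, IsTimeOne H f := by
  obtain ⟨Γ, h0, h1, h2, h3⟩ := exists_flow h
  choose lf hlf using proj_surj (n := n)
  have key : ∀ z w : PtE n, proj z = proj w → proj (Γ z 1) = proj (Γ w 1) := by
    intro z w hzw
    have h4 : z = w + (z - w) := by abel
    rw [h4, h3 w _ ((proj_eq z w).1 hzw), proj_eq, add_sub_cancel_left]
    exact (proj_eq z w).1 hzw
  refine ⟨fun p => proj (Γ (lf p) 1), ?_, ?_⟩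
  · intro γ hγ
    have h4 := h2 γ fun t => (sys_iff h γ t).1 (hγ t)
    have h5 : proj (γ 1) = proj (Γ (γ 0) 1) := by
      conv_lhs => rw [h4]
    rw [h5]
    exact key _ _ (hlf _)
  · intro f hf
    funext p
    have h4 := hf (Γ (lf p)) fun t => (sys_iff h (Γ (lf p)) t).2 (h1 _ t)
    rw [h0, hlf] at h4
    exact h4

end Pool.Agent.H60.QG
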